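import Pool.Agent.H22.CM.Stm

set_option autoImplicit false

namespace Pool.Agent.H31.CM

open Pool.Agent.Y382.PAR H22.CM

lemma exists_third {α : Type*} [Finite α] (a b : α) (h : 3 ≤ Nat.card α) :
    ∃ c, c ≠ a ∧ c ≠ b := by
  by_contra hc
  push Not at hc
  have h1 : (Set.univ : Set α) ⊆ {a, b} := by
    intro c _
    by_cases h : c = a
    · left; exact h
    · right; exact hc c h
  have h2 := Set.ncard_le_ncard h1 (Set.toFinite _)
  rw [Set.ncard_univ] at h2
  have h3 : ({a, b} : Set α).ncard ≤ 2 := by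
    refine (Set.ncard_insert_le a {b}).trans ?_
    rw [Set.ncard_singleton]
  omega

/-- coordinates of the Klein group -/
def nu {H : Type} [Group H] (x y : H) (n : ℕ) : H := x ^ (n % 2) * y ^ (n / 2)

section
variable {H : Type} [Group H]

lemma nu_xor {x y : H} (hx : x * x = 1) (hy : y * y = 1) (hxy : x * y = y * x) :
    ∀ a b : ℕ, a < 4 → b < 4 → nu x y (a ^^^ b) = nu x y a * nu x y b := by
  have hx' : ∀ z, x * (x * z) = z := fun z => by rw [← mul_assoc, hx, one_mul]
  have hy' : ∀ z, y * (y * z) = z := fun z => by rw [← mul_assoc, hy, one_mul]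
  have h1 : ∀ z, y * (x * z) = x * (y * z) := fun z => by rw [← mul_assoc, ← hxy, mul_assoc]
  intro a b ha hb
  interval_cases a <;> interval_cases b <;>
    simp [nu, mul_assoc, hx, hy, hx', hy', h1, hxy.symm]

structure Kl (N : Subgroup H) (x y : H) : Prop where
  hx : x ∈ N
  hy : y ∈ N
  x1 : x ≠ 1
  y1 : y ≠ 1
  xy : x ≠ y
  card : Nat.card N = 4
  sq : ∀ z ∈ N, z * z = 1

lemma Kl.comm {N : Subgroup H} {x y : H} (h : Kl N x y) : ∀ a ∈ N, ∀ b ∈ N, a * b = b * a := by
  intro a ha b hb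
  have h1 := h.sq _ (N.mul_mem ha hb)
  have h2 := h.sq a ha
  have h3 := h.sq b hb
  have e1 : a⁻¹ = a := inv_eq_of_mul_eq_one_left h2
  have e2 : b⁻¹ = b := inv_eq_of_mul_eq_one_left h3
  have e3 : (a * b)⁻¹ = a * b := inv_eq_of_mul_eq_one_left h1
  rw [mul_inv_rev, e1, e2] at e3
  exact e3.symm

lemma Kl.mem {N : Subgroup H} {x y : H} (h : Kl N x y) (n : ℕ) : nu x y n ∈ N :=
  N.mul_mem (N.pow_mem h.hx _) (N.pow_mem h.hy _)

lemma Kl.xor {N : Subgroup H} {x y : H} (h : Kl N x y) :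
    ∀ a b : ℕ, a < 4 → b < 4 → nu x y (a ^^^ b) = nu x y a * nu x y b :=
  nu_xor (h.sq x h.hx) (h.sq y h.hy) (h.comm x h.hx y h.hy)

lemma Kl.inj1 {N : Subgroup H} {x y : H} (h : Kl N x y) :
    ∀ a : ℕ, a < 4 → nu x y a = 1 → a = 0 := by
  intro a ha h1
  interval_cases a
  · rfl
  · exact absurd (by simpa [nu] using h1) h.x1
  · exact absurd (by simpa [nu] using h1) h.y1
  · exfalso
    have h2 : x * y = 1 := by simpa [nu] using h1
    apply h.xy
    have h3 := h.sq y h.hy
    have : x * y = y * y := by rw [h2, h3]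
    exact mul_right_cancel this

lemma Kl.inj {N : Subgroup H} {x y : H} (h : Kl N x y) :
    ∀ a b : ℕ, a < 4 → b < 4 → nu x y a = nu x y b → a = b := by
  intro a b ha hb hab
  have h1 : a ^^^ b < 4 := by
    have : a ^^^ b < 2 ^ 2 := Nat.xor_lt_two_pow (by omega) (by omega)
    simpa using this
  have h2 : nu x y (a ^^^ b) = 1 := by
    rw [h.xor a b ha hb, hab]
    exact h.sq _ (h.mem b)
  exact Nat.xor_eq_zero_iff.1 (h.inj1 _ h1 h2)

lemma Kl.surj [Finite H] {N : Subgroup H} {x y : H} (h : Kl N x y) :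
    ∀ z ∈ N, ∃ n : ℕ, n < 4 ∧ nu x y n = z := by
  intro z hz
  have hf : Function.Injective (fun n : Fin 4 => (⟨nu x y n, h.mem n⟩ : N)) := by
    intro a b hab
    have := congrArg Subtype.val hab
    exact Fin.ext (h.inj a b a.2 b.2 this)
  have hb := hf.bijective_of_nat_card_le (by rw [h.card]; simp)
  obtain ⟨n, hn⟩ := hb.2 ⟨z, hz⟩
  exact ⟨n, n.2, congrArg Subtype.val hn⟩

lemma swp_lt (n : ℕ) (h : n < 4) : swp n < 4 := by unfold swp; omega

/-- the action of `p` -/
def act (a n : ℕ) : ℕ := if a = 1 then swp n else n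

/-- all the data for the coordinates -/
structure Dat (N : Subgroup H) (x y p q : H) (a u v w : ℕ) : Prop where
  kl : Kl N x y
  lt : LT a u v w
  u4 : u < 4
  v4 : v < 4
  w4 : w < 4
  au : act a u = u
  av : act a v = v
  aw : act a w = w
  hp : ∀ n, n < 4 → p * nu x y n = nu x y (act a n) * p
  hq : ∀ n, n < 4 → q * nu x y n = nu x y n * q
  pp : p * p = nu x y u
  qq : q * q = nu x y v
  qp : q * p = nu x y w * (p * q)
  ip : p ∉ N
  iq : q ∉ N
  ipq : p * q ∉ N

lemma Dat.core {N : Subgroup H} {x y p q : H} {a u v w : ℕ} (D : Dat N x y p q a u v w)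
    {i j i' j' : ℕ} (hi : i < 2) (hj : j < 2) (hi' : i' < 2) (hj' : j' < 2) :
    p ^ i * q ^ j * (p ^ i' * q ^ j') =
      nu x y (if j = 1 ∧ i' = 1 then w else 0) * nu x y (if i = 1 ∧ i' = 1 then u else 0) *
      nu x y (if j = 1 ∧ j' = 1 then v else 0) * (p ^ (i ^^^ i') * q ^ (j ^^^ j')) := by
  have n0 : nu x y 0 = 1 := by simp [nu]
  have pu : p * nu x y u = nu x y u * p := by rw [D.hp u D.u4, D.au]
  have pv : p * nu x y v = nu x y v * p := by rw [D.hp v D.v4, D.av]
  have pw : p * nu x y w = nu x y w * p := by rw [D.hp w D.w4, D.aw]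
  have pu' : ∀ z, p * (nu x y u * z) = nu x y u * (p * z) := fun z => by
    rw [← mul_assoc, pu, mul_assoc]
  have pv' : ∀ z, p * (nu x y v * z) = nu x y v * (p * z) := fun z => by
    rw [← mul_assoc, pv, mul_assoc]
  have pw' : ∀ z, p * (nu x y w * z) = nu x y w * (p * z) := fun z => by
    rw [← mul_assoc, pw, mul_assoc]
  have qu' : ∀ z, q * (nu x y u * z) = nu x y u * (q * z) := fun z => by
    rw [← mul_assoc, D.hq u D.u4, mul_assoc]
  have qv' : ∀ z, q * (nu x y v * z) = nu x y v * (q * z) := fun z => by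
    rw [← mul_assoc, D.hq v D.v4, mul_assoc]
  have pp' : ∀ z, p * (p * z) = nu x y u * z := fun z => by rw [← mul_assoc, D.pp]
  have qq' : ∀ z, q * (q * z) = nu x y v * z := fun z => by rw [← mul_assoc, D.qq]
  have qp' : ∀ z, q * (p * z) = nu x y w * (p * (q * z)) := fun z => by
    rw [← mul_assoc, D.qp, mul_assoc, mul_assoc]
  have uv : nu x y v * nu x y u = nu x y u * nu x y v :=
    D.kl.comm _ (D.kl.mem v) _ (D.kl.mem u)
  have uv' : ∀ z, nu x y v * (nu x y u * z) = nu x y u * (nu x y v * z) := fun z => by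
    rw [← mul_assoc, uv, mul_assoc]
  have ei : i = 0 ∨ i = 1 := by omega
  have ej : j = 0 ∨ j = 1 := by omega
  have ei' : i' = 0 ∨ i' = 1 := by omega
  have ej' : j' = 0 ∨ j' = 1 := by omega
  rcases ei with rfl | rfl <;> rcases ej with rfl | rfl <;> rcases ei' with rfl | rfl <;>
    rcases ej' with rfl | rfl <;>
    simp [n0, mul_assoc, pu, pv, pw, pu', pv', pw', qu', qv', D.pp, D.qq, D.qp, pp', qq', qp',
      uv, uv', D.hq u D.u4, D.hq v D.v4]

lemma Dat.mul {N : Subgroup H} {x y p q : H} {a u v w : ℕ} (D : Dat N x y p q a u v w)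
    {n n' i j i' j' : ℕ} (hn : n < 4) (hn' : n' < 4) (hi : i < 2) (hj : j < 2) (hi' : i' < 2)
    (hj' : j' < 2) :
    (nu x y n * (p ^ i * q ^ j)) * (nu x y n' * (p ^ i' * q ^ j')) =
      nu x y ((((n ^^^ (if a = 1 ∧ i = 1 then swp n' else n')) ^^^
        (if j = 1 ∧ i' = 1 then w else 0)) ^^^ (if i = 1 ∧ i' = 1 then u else 0)) ^^^
        (if j = 1 ∧ j' = 1 then v else 0)) * (p ^ (i ^^^ i') * q ^ (j ^^^ j')) := by
  have hx4 : ∀ a b : ℕ, a < 4 → b < 4 → a ^^^ b < 4 := by
    intro a b ha hb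
    have : a ^^^ b < 2 ^ 2 := Nat.xor_lt_two_pow (by omega) (by omega)
    simpa using this
  have hm : (if a = 1 ∧ i = 1 then swp n' else n') < 4 := by
    split_ifs
    · exact swp_lt _ hn'
    · exact hn'
  have hw : (if j = 1 ∧ i' = 1 then w else 0) < 4 := by
    split_ifs
    · exact D.w4
    · omega
  have hu : (if i = 1 ∧ i' = 1 then u else 0) < 4 := by
    split_ifs
    · exact D.u4
    · omega
  have hv : (if j = 1 ∧ j' = 1 then v else 0) < 4 := by
    split_ifs
    · exact D.v4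
    · omega
  have e1 : p ^ i * q ^ j * nu x y n' =
      nu x y (if a = 1 ∧ i = 1 then swp n' else n') * (p ^ i * q ^ j) := by
    have ej : q ^ j * nu x y n' = nu x y n' * q ^ j := by
      have : j = 0 ∨ j = 1 := by omega
      rcases this with rfl | rfl
      · simp
      · rw [pow_one, D.hq n' hn']
    have ei : p ^ i * nu x y n' = nu x y (if a = 1 ∧ i = 1 then swp n' else n') * p ^ i := by
      have : i = 0 ∨ i = 1 := by omega
      rcases this with rfl | rfl
      · simp
      · rw [pow_one, D.hp n' hn', act]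
        simp
    rw [mul_assoc, ej, ← mul_assoc, ei, mul_assoc]
  rw [D.kl.xor _ _ (hx4 _ _ (hx4 _ _ (hx4 _ _ hn hm) hw) hu) hv,
    D.kl.xor _ _ (hx4 _ _ (hx4 _ _ hn hm) hw) hu, D.kl.xor _ _ (hx4 _ _ hn hm) hw,
    D.kl.xor _ _ hn hm]
  calc _ = nu x y n * ((p ^ i * q ^ j * nu x y n') * (p ^ i' * q ^ j')) := by
        simp only [mul_assoc]
    _ = nu x y n * nu x y (if a = 1 ∧ i = 1 then swp n' else n') *
        (p ^ i * q ^ j * (p ^ i' * q ^ j')) := by rw [e1]; simp only [mul_assoc]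
    _ = _ := by rw [D.core hi hj hi' hj']; simp only [mul_assoc]

lemma Dat.coo [Finite H] {N : Subgroup H} [N.Normal] {x y p q : H} {a u v w : ℕ}
    (D : Dat N x y p q a u v w) (hH : Nat.card H = 16) : Coo H 16 (law16 a u v w) := by
  set E : Fin 16 → H := fun t =>
    nu x y ((t : ℕ) % 4) * (p ^ ((t : ℕ) / 4 % 2) * q ^ ((t : ℕ) / 8)) with hE
  have hinj : Function.Injective E := by
    intro s t hst
    simp only [hE] at hst
    -- modulo N
    have h1 := congrArg (QuotientGroup.mk' N) hst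
    have hn0 : ∀ n, QuotientGroup.mk' N (nu x y n) = 1 := fun n =>
      (QuotientGroup.eq_one_iff _).2 (D.kl.mem n)
    simp only [map_mul, map_pow, hn0, one_mul] at h1
    set P := QuotientGroup.mk' N p
    set Q := QuotientGroup.mk' N q
    have hP : P ≠ 1 := fun h => D.ip ((QuotientGroup.eq_one_iff _).1 h)
    have hQ : Q ≠ 1 := fun h => D.iq ((QuotientGroup.eq_one_iff _).1 h)
    have hPQ : P * Q ≠ 1 := fun h => D.ipq ((QuotientGroup.eq_one_iff _).1 (by
      rw [← h]; rfl))
    have hQQ : Q * Q = 1 := by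
      have := hn0 v
      rw [← D.qq, map_mul] at this
      exact this
    have hPneQ : P ≠ Q := fun h => hPQ (by rw [h, hQQ])
    have hs1 : (s : ℕ) / 4 % 2 = 0 ∨ (s : ℕ) / 4 % 2 = 1 := by omega
    have hs2 : (s : ℕ) / 8 = 0 ∨ (s : ℕ) / 8 = 1 := by have := s.2; omega
    have ht1 : (t : ℕ) / 4 % 2 = 0 ∨ (t : ℕ) / 4 % 2 = 1 := by omega
    have ht2 : (t : ℕ) / 8 = 0 ∨ (t : ℕ) / 8 = 1 := by have := t.2; omega
    have key : (s : ℕ) / 4 % 2 = (t : ℕ) / 4 % 2 ∧ (s : ℕ) / 8 = (t : ℕ) / 8 := by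
      rcases hs1 with a1 | a1 <;> rcases hs2 with a2 | a2 <;> rcases ht1 with a3 | a3 <;>
        rcases ht2 with a4 | a4 <;> rw [a1, a2, a3, a4] at h1 <;>
        simp only [pow_zero, pow_one, one_mul, mul_one] at h1 <;> rw [a1, a2, a3, a4] <;>
        first
        | exact ⟨rfl, rfl⟩
        | exact absurd h1 hQ
        | exact absurd h1.symm hQ
        | exact absurd h1 hP
        | exact absurd h1.symm hP
        | exact absurd h1 hPQ
        | exact absurd h1.symm hPQ
        | exact absurd h1 hPneQ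
        | exact absurd h1.symm hPneQ
        | exact absurd (mul_eq_left.1 h1) hQ
        | exact absurd (mul_eq_left.1 h1.symm) hQ
        | exact absurd (mul_eq_right.1 h1) hP
        | exact absurd (mul_eq_right.1 h1.symm) hP
    rw [key.1, key.2] at hst
    have h2 := mul_right_cancel hst
    have h3 := D.kl.inj _ _ (Nat.mod_lt _ (by norm_num)) (Nat.mod_lt _ (by norm_num)) h2
    apply Fin.ext
    omega
  have hbij := hinj.bijective_of_nat_card_le (by rw [hH]; simp)
  refine ⟨Equiv.ofBijective E hbij, ?_⟩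
  intro s t z hz
  show E s * E t = E z
  simp only [hE]
  have hs := s.2
  have ht := t.2
  rw [D.mul (Nat.mod_lt _ (by norm_num)) (Nat.mod_lt _ (by norm_num))
    (Nat.mod_lt _ (by norm_num)) (by omega) (Nat.mod_lt _ (by norm_num)) (by omega)]
  unfold law16 at hz
  simp only at hz
  have hx4 : ∀ a b : ℕ, a < 4 → b < 4 → a ^^^ b < 4 := by
    intro a b ha hb
    have : a ^^^ b < 2 ^ 2 := Nat.xor_lt_two_pow (by omega) (by omega)
    simpa using this
  have hx2 : ∀ a b : ℕ, a < 2 → b < 2 → a ^^^ b < 2 := by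
    intro a b ha hb
    have : a ^^^ b < 2 ^ 1 := Nat.xor_lt_two_pow (by omega) (by omega)
    simpa using this
  have b1 : (((s : ℕ) % 4 ^^^ (if a = 1 ∧ (s : ℕ) / 4 % 2 = 1 then swp ((t : ℕ) % 4)
      else (t : ℕ) % 4)) ^^^ (if (s : ℕ) / 8 = 1 ∧ (t : ℕ) / 4 % 2 = 1 then w else 0)) ^^^
      (if (s : ℕ) / 4 % 2 = 1 ∧ (t : ℕ) / 4 % 2 = 1 then u else 0) ^^^
      (if (s : ℕ) / 8 = 1 ∧ (t : ℕ) / 8 = 1 then v else 0) < 4 := by
    have d1 := D.u4
    have d2 := D.v4
    have d3 := D.w4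
    refine hx4 _ _ (hx4 _ _ (hx4 _ _ (hx4 _ _ (Nat.mod_lt _ (by norm_num)) ?_) ?_) ?_) ?_
    · split_ifs
      · exact swp_lt _ (Nat.mod_lt _ (by norm_num))
      · exact Nat.mod_lt _ (by norm_num)
    all_goals split_ifs <;> omega
  have b2 : (s : ℕ) / 4 % 2 ^^^ (t : ℕ) / 4 % 2 < 2 :=
    hx2 _ _ (Nat.mod_lt _ (by norm_num)) (Nat.mod_lt _ (by norm_num))
  have b3 : (s : ℕ) / 8 ^^^ (t : ℕ) / 8 < 2 := hx2 _ _ (by omega) (by omega)
  generalize ((((s : ℕ) % 4 ^^^ (if a = 1 ∧ (s : ℕ) / 4 % 2 = 1 then swp ((t : ℕ) % 4)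
      else (t : ℕ) % 4)) ^^^ (if (s : ℕ) / 8 = 1 ∧ (t : ℕ) / 4 % 2 = 1 then w else 0)) ^^^
      (if (s : ℕ) / 4 % 2 = 1 ∧ (t : ℕ) / 4 % 2 = 1 then u else 0) ^^^
      (if (s : ℕ) / 8 = 1 ∧ (t : ℕ) / 8 = 1 then v else 0)) = A at b1 hz ⊢
  generalize (s : ℕ) / 4 % 2 ^^^ (t : ℕ) / 4 % 2 = B at b2 hz ⊢
  generalize (s : ℕ) / 8 ^^^ (t : ℕ) / 8 = C at b3 hz ⊢
  have z1 : (z : ℕ) % 4 = A := by omega
  have z2 : (z : ℕ) / 4 % 2 = B := by omega
  have z3 : (z : ℕ) / 8 = C := by omega
  rw [z1, z2, z3]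

lemma exists_dat [Finite H] {N : Subgroup H} (hsq : ∀ x : H, x * x ∈ N)
    {x y p q : H} {a : ℕ} (K : Kl N x y) (ha : a = 0 ∨ a = 1)
    (hp : ∀ n, n < 4 → p * nu x y n = nu x y (act a n) * p)
    (hq : ∀ n, n < 4 → q * nu x y n = nu x y n * q)
    (ip : p ∉ N) (iq : q ∉ N) (ipq : p * q ∉ N) : ∃ u v w, Dat N x y p q a u v w := by
  obtain ⟨u, hu, eu⟩ := K.surj _ (hsq p)
  obtain ⟨v, hv, ev⟩ := K.surj _ (hsq q)
  have hw0 : q * p * (p * q)⁻¹ ∈ N := by
    have h1 : q * p * (p * q)⁻¹ = (q * p) * (q * p) * (p⁻¹ * (q * q)⁻¹ * p) * (p * p)⁻¹ := by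
      group
    have h2 : (q * q)⁻¹ = q⁻¹ * q⁻¹ := by group
    have h3 : p⁻¹ * (q * q)⁻¹ * p * (p * p)⁻¹ =
      (p⁻¹ * (q * q)⁻¹) * (p⁻¹ * (q * q)⁻¹) * (q * q) := by group
    rw [h1, mul_assoc, h3]
    exact N.mul_mem (hsq _) (N.mul_mem (hsq _) (hsq _))
  obtain ⟨w, hw, ew⟩ := K.surj _ hw0
  have qp : q * p = nu x y w * (p * q) := by rw [ew]; group
  have hact : ∀ n, n < 4 → act a n < 4 := by
    intro n hn
    unfold act
    split_ifs
    · exact swp_lt _ hn
    · exact hn
  have au : act a u = u := by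
    apply K.inj _ _ (hact u hu) hu
    have h1 := hp u hu
    rw [eu, ← mul_assoc] at h1
    rw [eu]
    exact (mul_right_cancel h1).symm
  have wq : ∀ z, q * (nu x y w * z) = nu x y w * (q * z) := fun z => by
    rw [← mul_assoc, hq w hw, mul_assoc]
  have ww : nu x y w * nu x y w = 1 := K.sq _ (K.mem w)
  have av : act a v = v := by
    apply K.inj _ _ (hact v hv) hv
    have h1 := hp v hv
    have h2 : p * (q * q) = (q * q) * p := by
      calc p * (q * q) = (nu x y w * nu x y w) * (p * q) * q := by rw [ww, one_mul, mul_assoc]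
        _ = nu x y w * (nu x y w * (p * q)) * q := by simp only [mul_assoc]
        _ = nu x y w * (q * p) * q := by rw [← qp]
        _ = q * (nu x y w * (p * q)) := by rw [wq]; simp only [mul_assoc]
        _ = (q * q) * p := by rw [← qp]; simp only [mul_assoc]
    rw [← ev] at h2
    rw [h2] at h1
    exact (mul_right_cancel h1).symm
  have aw : act a w = w := by
    apply K.inj _ _ (hact w hw) hw
    have h1 : q * (p * p) = nu x y w * nu x y (act a w) * ((p * p) * q) := by
      rw [← mul_assoc, qp]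
      calc _ = nu x y w * (p * (q * p)) := by simp only [mul_assoc]
        _ = nu x y w * ((p * nu x y w) * (p * q)) := by rw [qp]; simp only [mul_assoc]
        _ = _ := by rw [hp w hw]; simp only [mul_assoc]
    have h2 : q * (p * p) = (p * p) * q := by rw [← eu, hq u hu]
    rw [h2] at h1
    have h3 : nu x y w * nu x y (act a w) = 1 := by
      have := mul_right_cancel (b := (p * p) * q) (a := 1)
        (c := nu x y w * nu x y (act a w)) (by rw [one_mul]; exact h1)
      exact this.symm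
    have h4 : nu x y w * nu x y (act a w) = nu x y w * nu x y w := by rw [h3, ww]
    exact mul_left_cancel h4
  refine ⟨u, v, w, K, ?_, hu, hv, hw, au, av, aw, hp, hq, eu.symm, ev.symm, qp, ip, iq, ipq⟩
  rcases ha with rfl | rfl
  · left; exact ⟨rfl, hu, hv, hw⟩
  · right
    have h : ∀ n, n < 4 → act 1 n = n → n = 0 ∨ n = 3 := by
      intro n hn
      unfold act swp
      simp only [if_true]
      omega
    exact ⟨rfl, h u hu au, h v hv av, h w hw aw⟩

end

theorem t_COV : S_COV := by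
  intro H _ _ N hH hN hcyc hN4 hsq
  haveI := hN
  have sqN : ∀ z ∈ N, z * z = 1 := by
    intro z hz
    obtain ⟨k, hk, hk2⟩ := (Nat.dvd_prime_pow Nat.prime_two).1
      (show orderOf (⟨z, hz⟩ : N) ∣ 2 ^ 2 by
        have := orderOf_dvd_natCard (⟨z, hz⟩ : N)
        rwa [hN4] at this)
    have h2 : orderOf (⟨z, hz⟩ : N) ∣ 2 := by
      interval_cases k
      · rw [hk2]; norm_num
      · rw [hk2]; norm_num
      · exact absurd (isCyclic_of_orderOf_eq_card (⟨z, hz⟩ : N) (by rw [hk2, hN4]; norm_num)) hcyc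
    have h3 := congrArg Subtype.val (orderOf_dvd_iff_pow_eq_one.1 h2)
    simpa [pow_two] using h3
  have hQ4 : Nat.card (H ⧸ N) = 4 := by
    have := N.card_eq_card_quotient_mul_card_subgroup
    rw [hH, hN4] at this
    omega
  -- third element outside
  have hthird : ∀ p : H, ∃ q, q ∉ N ∧ p * q ∉ N := by
    intro p
    obtain ⟨c, hc1, hc2⟩ := exists_third (1 : H ⧸ N) (QuotientGroup.mk' N p) (by omega)
    obtain ⟨q, rfl⟩ := QuotientGroup.mk'_surjective N c
    refine ⟨q, fun h => hc1 ((QuotientGroup.eq_one_iff _).2 h), fun h => hc2 ?_⟩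
    have h1 : QuotientGroup.mk' N (p * q) = 1 := (QuotientGroup.eq_one_iff _).2 h
    have h2 : QuotientGroup.mk' N (p * p) = 1 := (QuotientGroup.eq_one_iff _).2 (hsq p)
    rw [map_mul] at h1 h2
    have h3 := h1.trans h2.symm
    exact mul_left_cancel h3
  by_cases hcen : ∀ h z : H, z ∈ N → h * z = z * h
  · -- central
    obtain ⟨⟨x, hx⟩, hx1, -⟩ := exists_third (1 : N) 1 (by omega)
    obtain ⟨⟨y, hy⟩, hy1, hyx⟩ := exists_third (1 : N) ⟨x, hx⟩ (by omega)
    have K : Kl N x y := ⟨hx, hy, fun h => hx1 (Subtype.ext h), fun h => hy1 (Subtype.ext h),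
      fun h => hyx (Subtype.ext h.symm), hN4, sqN⟩
    obtain ⟨p, hp, -⟩ := hthird 1
    obtain ⟨q, hq, hpq⟩ := hthird p
    obtain ⟨u, v, w, D⟩ := exists_dat hsq K (Or.inl rfl) (p := p) (q := q)
      (fun n _ => by rw [act]; simp only [Nat.zero_ne_one, if_false]; exact hcen _ _ (K.mem n))
      (fun n _ => hcen _ _ (K.mem n)) hp hq hpq
    exact ⟨0, u, v, w, D.lt, D.coo hH⟩
  · push Not at hcen
    obtain ⟨p, x, hx, hpx⟩ := hcen
    set y : H := p * x * p⁻¹ with hy
    have hyN : y ∈ N := hN.conj_mem x hx p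
    have px : p * x = y * p := by rw [hy]; group
    have x1 : x ≠ 1 := fun h => hpx (by rw [h]; simp)
    have y1 : y ≠ 1 := fun h => x1 (by
      rw [h, one_mul] at px
      exact mul_eq_left.1 px)
    have xy : x ≠ y := fun h => hpx (by rw [px, ← h])
    have K : Kl N x y := ⟨hx, hyN, x1, y1, xy, hN4, sqN⟩
    have py : p * y = x * p := by
      have h1 := K.comm _ (hsq p) x hx
      calc p * y = (p * p) * x * p⁻¹ := by rw [hy]; group
        _ = x * p := by rw [h1]; group
    have hp : p ∉ N := fun h => hpx (K.comm _ h _ hx)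
    have cxy : x * y = y * x := K.comm x hx y hyN
    have hact : ∀ n, n < 4 → p * nu x y n = nu x y (act 1 n) * p := by
      intro n hn
      interval_cases n
      · simp [nu, act, swp]
      · simp [nu, act, swp, px]
      · simp [nu, act, swp, py]
      · simp only [nu, act, swp]
        norm_num
        rw [← mul_assoc, px, mul_assoc, py, ← mul_assoc, cxy]
    have hswp : ∀ k, k < 4 → p * nu x y k = nu x y k * p → k = 0 ∨ k = 3 := by
      intro k hk h
      rw [hact k hk] at h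
      have := K.inj _ _ (by unfold act; simp only [if_true]; exact swp_lt k hk) hk
        (mul_right_cancel h)
      unfold act swp at this
      simp only [if_true] at this
      omega
    have cen : ∀ q : H, q * x = x * q → q * y = y * q → ∀ n, n < 4 →
        q * nu x y n = nu x y n * q := by
      intro q h1 h2 n _
      have e1 : Commute q x := h1
      have e2 : Commute q y := h2
      exact (e1.pow_right _).mul_right (e2.pow_right _)
    obtain ⟨q, hq, hpq, qx, qy⟩ : ∃ q, q ∉ N ∧ p * q ∉ N ∧ q * x = x * q ∧ q * y = y * q := by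
      obtain ⟨h, hh, hph⟩ := hthird p
      -- the third element is fixed
      have hm : h * (x * y) = (x * y) * h := by
        have hmN : h * (x * y) * h⁻¹ ∈ N := hN.conj_mem _ (N.mul_mem hx hyN) h
        obtain ⟨k, hk, ek⟩ := K.surj _ hmN
        have pxy : p * (x * y) = (x * y) * p := by
          rw [← mul_assoc, px, mul_assoc, py, ← mul_assoc, cxy]
        have hc : p * h * p⁻¹ * h⁻¹ ∈ N := by
          have h1 : p * h * p⁻¹ * h⁻¹ = (p * h) * (p * h) *
            ((h⁻¹ * (p * p)⁻¹) * (h⁻¹ * (p * p)⁻¹) * (p * p)) := by group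
          rw [h1]
          exact N.mul_mem (hsq _) (N.mul_mem (hsq _) (hsq _))
        have h2 : p * (h * (x * y) * h⁻¹) = (h * (x * y) * h⁻¹) * p := by
          have h3 := K.comm _ hc _ hmN
          calc p * (h * (x * y) * h⁻¹)
              = (p * h * p⁻¹ * h⁻¹) * (h * (p * (x * y)) * h⁻¹ * (h * p⁻¹ * h⁻¹ * p)) *
                (h * p⁻¹ * h⁻¹ * p)⁻¹ := by group
            _ = (p * h * p⁻¹ * h⁻¹) * (h * ((x * y) * p) * h⁻¹) := by rw [pxy]; group
            _ = (p * h * p⁻¹ * h⁻¹) * (h * (x * y) * h⁻¹) * (h * p * h⁻¹) := by group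
            _ = (h * (x * y) * h⁻¹) * (p * h * p⁻¹ * h⁻¹) * (h * p * h⁻¹) := by rw [h3]
            _ = (h * (x * y) * h⁻¹) * p := by group
        rw [← ek] at h2
        rcases hswp k hk h2 with rfl | rfl
        · exfalso
          have h4 : h * (x * y) * h⁻¹ = 1 := by rw [← ek]; simp [nu]
          have h5 : x * y = 1 := mul_eq_left.1 (mul_inv_eq_one.1 h4)
          apply xy
          have h6 := K.sq y hyN
          exact mul_right_cancel (h5.trans h6.symm)
        · have h4 : h * (x * y) * h⁻¹ = x * y := by rw [← ek]; simp [nu]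
          exact mul_inv_eq_iff_eq_mul.1 h4
      -- `y = x * (x * y)`
      have xx : x * x = 1 := K.sq x hx
      have yxy : y = x * (x * y) := by rw [← mul_assoc, xx, one_mul]
      obtain ⟨k, hk, ek⟩ := K.surj _ (hN.conj_mem _ hx h)
      interval_cases k
      · exfalso
        have h4 : h * x * h⁻¹ = 1 := by rw [← ek]; simp [nu]
        exact x1 (mul_eq_left.1 (mul_inv_eq_one.1 h4))
      · have h4 : h * x * h⁻¹ = x := by rw [← ek]; simp [nu]
        have h5 : h * x = x * h := mul_inv_eq_iff_eq_mul.1 h4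
        refine ⟨h, hh, hph, h5, ?_⟩
        rw [yxy, ← mul_assoc, h5, mul_assoc, hm, ← mul_assoc]
      · have h4 : h * x * h⁻¹ = y := by rw [← ek]; simp [nu]
        have h5 : h * x = y * h := mul_inv_eq_iff_eq_mul.1 h4
        have h6 : h * y = x * h := by
          have e1 : y * (x * y) = x := by
            rw [← mul_assoc, ← cxy, mul_assoc, K.sq y hyN, mul_one]
          calc h * y = (h * x) * (x * y) := by conv_lhs => rw [yxy, ← mul_assoc]
            _ = y * (h * (x * y)) := by rw [h5, mul_assoc]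
            _ = x * h := by rw [hm, ← mul_assoc, e1]
        refine ⟨p * h, hph, ?_, ?_, ?_⟩
        · rw [← mul_assoc]
          intro h7
          apply hh
          have := N.mul_mem (N.inv_mem (hsq p)) h7
          rwa [inv_mul_cancel_left] at this
        · rw [mul_assoc, h5, ← mul_assoc, py, mul_assoc]
        · rw [mul_assoc, h6, ← mul_assoc, px, mul_assoc]
      · exfalso
        have h4 : h * x * h⁻¹ = x * y := by rw [← ek]; simp [nu]
        have h5 : h * x = (x * y) * h := mul_inv_eq_iff_eq_mul.1 h4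
        have h6 : x = x * y := mul_left_cancel (h5.trans hm.symm)
        exact y1 (mul_eq_left.1 h6.symm)
    obtain ⟨u, v, w, D⟩ := exists_dat hsq K (Or.inr rfl) (p := p) (q := q) hact
      (cen q qx qy) hp hq hpq
    exact ⟨1, u, v, w, D.lt, D.coo hH⟩

end Pool.Agent.H31.CM
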