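import Pool.Agent.H22.CM.Stm

set_option autoImplicit false

namespace Pool.Agent.H31.CM

open Pool.Agent.Y382.PAR H22.CM

theorem t_HPT (hFAM : S_FAM) (hCLS : S_CLS) (hCOO : S_COO) (hTRO : S_TRO) (hF8 : S_F8)
    (hSTR : S_STR) (hVCM : S_VCM) (hEXC : S_EXC) (hE8 : S_E8) : S_HPT := by
  have key : ∀ c : ℕ, ∀ (P : Type) [Group P] [Finite P], Nat.card P = c → IsPGroup 2 P →
      ¬ IsCyclic P → HasCM P := by
    intro c
    induction c using Nat.strong_induction_on with
    | _ c ih =>
    intro P _ _ hc hP hcyc
    obtain ⟨n, hn⟩ := IsPGroup.iff_card.1 hP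
    have hord : ∀ x : P, ∃ k, k < n ∧ orderOf x = 2 ^ k := by
      intro x
      obtain ⟨k, hk, hk2⟩ := (Nat.dvd_prime_pow Nat.prime_two).1
        (show orderOf x ∣ 2 ^ n by rw [← hn]; exact orderOf_dvd_natCard x)
      refine ⟨k, lt_of_le_of_ne hk ?_, hk2⟩
      rintro rfl
      exact hcyc (isCyclic_of_orderOf_eq_card x (by rw [hk2, hn]))
    have hsq : ∀ x : P, orderOf x ∣ 2 → x * x = 1 := by
      intro x hx
      rw [← pow_two]
      exact orderOf_dvd_iff_pow_eq_one.1 hx
    rcases Nat.lt_or_ge n 2 with h2 | h2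
    · exfalso
      interval_cases n
      · obtain ⟨k, hk, -⟩ := hord 1
        omega
      · haveI : Fact (Nat.Prime 2) := ⟨Nat.prime_two⟩
        exact hcyc (isCyclic_of_prime_card (p := 2) (by rw [hn]; norm_num))
    rcases h2.eq_or_lt with h | h3
    · subst h
      apply hVCM P (by rw [hn]; norm_num)
      intro x
      obtain ⟨k, hk, hk2⟩ := hord x
      apply hsq
      rw [hk2]
      interval_cases k <;> norm_num
    rcases Nat.lt_or_ge n 4 with h4 | h4
    · obtain rfl : n = 3 := by omega
      by_cases hx : ∃ x : P, orderOf x * 2 = Nat.card P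
      · obtain ⟨r, e, hft, hfam⟩ := hCLS P 1 le_rfl (by rw [hn]; norm_num) hcyc hx
        have h1 := hCOO P (2 ^ 1) r e (by norm_num) hfam
        have h2 := hF8 r e (by simpa using hft)
        exact (hTRO P (4 * 2 ^ 1) (lawF (2 ^ 1) r e) h1).2 (by simpa using h2)
      · push Not at hx
        apply hE8 P (by rw [hn]; norm_num)
        intro x
        obtain ⟨k, hk, hk2⟩ := hord x
        apply hsq
        have h5 := hx x
        rw [hk2, hn] at h5
        rw [hk2]
        interval_cases k
        · norm_num
        · norm_num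
        · norm_num at h5
    · have hcard : Nat.card P = 4 * 2 ^ (n - 2) := by
        rw [hn]
        have : n = 2 + (n - 2) := by omega
        conv_lhs => rw [this, pow_add]
        norm_num
      by_cases hx : ∃ x : P, orderOf x * 2 = Nat.card P
      · obtain ⟨r, e, hft, hfam⟩ := hCLS P (n - 2) (by omega) hcard hcyc hx
        obtain ⟨f, F, hF, -, -⟩ := hFAM P (n - 2) r e (by omega) hft hfam 1 1
        exact ⟨f, F, hF⟩
      · push Not at hx
        obtain ⟨N, hN, hNc, hN4, hNsq⟩ := hSTR P hP (by
          rw [hcard]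
          have : 2 ^ 2 ≤ 2 ^ (n - 2) := Nat.pow_le_pow_right (by norm_num) (by omega)
          omega) hcyc hx
        haveI := hN
        have hpos : 0 < Nat.card N := Nat.card_pos
        apply hEXC P N
        · apply hVCM (P ⧸ N)
          · have h5 := N.card_eq_card_quotient_mul_card_subgroup
            rw [← hN4, mul_comm] at h5
            exact (Nat.eq_of_mul_eq_mul_right hpos h5).symm
          · intro x
            obtain ⟨y, rfl⟩ := QuotientGroup.mk'_surjective N x
            rw [← map_mul]
            exact (QuotientGroup.eq_one_iff _).2 (hNsq y)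
        · exact ih (Nat.card N) (by omega) N rfl (hP.to_subgroup N) hNc
  intro P _ _ hP hcyc
  exact key _ P rfl hP hcyc

end Pool.Agent.H31.CM
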